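import Mathlib
import Pool.Agent.H31.Spec
import Pool.Agent.H31.Spec5
import Pool.Agent.H54.Spec

set_option autoImplicit false
open Matrix Finset

namespace Pool.Agent.Results.MP_5fc97f_co.Double

/-- A finite abstract simplicial complex. -/
def IsComplex (G : Finset (Finset ℕ)) : Prop :=
  ∀ x ∈ G, x.Nonempty ∧ ∀ y ⊆ x, y.Nonempty → y ∈ G

/-- The connection matrix. -/
def L (G : Finset (Finset ℕ)) : Matrix G G ℝ := fun x y => if (x.1 ∩ y.1).Nonempty then 1 else 0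

/-- The graph on the simplices, adjacent when they meet, is connected. -/
def Conn (G : Finset (Finset ℕ)) : Prop :=
  (SimpleGraph.fromRel fun x y : G => (x.1 ∩ y.1).Nonempty).Connected

def S (i : Fin 24) : Finset ℕ := ([{0}, {1}, {2}, {3}, {4}, {5}, {6}, {7}, {8}, {0, 1}, {0, 2}, {0, 8}, {1, 2}, {2, 3}, {3, 4}, {3, 5}, {4, 5}, {5, 6}, {6, 7}, {6, 8}, {7, 8}, {0, 1, 2}, {3, 4, 5}, {6, 7, 8}] : List (Finset ℕ)).getD i ∅

def g (i j : Fin 24) : ℤ := (([[-1, 0, 0, 0, 0, 0, 0, 0, -1, 0, 0, 1, -1, 0, 0, 0, 0, 0, 0, 0, 0, 1, 0, 0],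
  [0, 0, 0, 0, 0, 0, 0, 0, 0, 0, -1, 0, 0, 0, 0, 0, 0, 0, 0, 0, 0, 1, 0, 0],
  [0, 0, -1, -1, 0, 0, 0, 0, 0, -1, 0, 0, 0, 1, 0, 0, 0, 0, 0, 0, 0, 1, 0, 0],
  [0, 0, -1, -1, 0, 0, 0, 0, 0, 0, 0, 0, 0, 1, 0, 0, -1, 0, 0, 0, 0, 0, 1, 0],
  [0, 0, 0, 0, 0, 0, 0, 0, 0, 0, 0, 0, 0, 0, 0, -1, 0, 0, 0, 0, 0, 0, 1, 0],
  [0, 0, 0, 0, 0, -1, -1, 0, 0, 0, 0, 0, 0, 0, -1, 0, 0, 1, 0, 0, 0, 0, 1, 0],
  [0, 0, 0, 0, 0, -1, -1, 0, 0, 0, 0, 0, 0, 0, 0, 0, 0, 1, 0, 0, -1, 0, 0, 1],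
  [0, 0, 0, 0, 0, 0, 0, 0, 0, 0, 0, 0, 0, 0, 0, 0, 0, 0, 0, -1, 0, 0, 0, 1],
  [-1, 0, 0, 0, 0, 0, 0, 0, -1, 0, 0, 1, 0, 0, 0, 0, 0, 0, -1, 0, 0, 0, 0, 1],
  [0, 0, -1, 0, 0, 0, 0, 0, 0, 0, 1, 0, 1, 0, 0, 0, 0, 0, 0, 0, 0, -1, 0, 0],
  [0, -1, 0, 0, 0, 0, 0, 0, 0, 1, 0, 0, 1, 0, 0, 0, 0, 0, 0, 0, 0, -1, 0, 0],
  [1, 0, 0, 0, 0, 0, 0, 0, 1, 0, 0, -1, 0, 0, 0, 0, 0, 0, 0, 0, 0, 0, 0, 0],
  [-1, 0, 0, 0, 0, 0, 0, 0, 0, 1, 1, 0, 0, 0, 0, 0, 0, 0, 0, 0, 0, -1, 0, 0],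
  [0, 0, 1, 1, 0, 0, 0, 0, 0, 0, 0, 0, 0, -1, 0, 0, 0, 0, 0, 0, 0, 0, 0, 0],
  [0, 0, 0, 0, 0, -1, 0, 0, 0, 0, 0, 0, 0, 0, 0, 1, 1, 0, 0, 0, 0, 0, -1, 0],
  [0, 0, 0, 0, -1, 0, 0, 0, 0, 0, 0, 0, 0, 0, 1, 0, 1, 0, 0, 0, 0, 0, -1, 0],
  [0, 0, 0, -1, 0, 0, 0, 0, 0, 0, 0, 0, 0, 0, 1, 1, 0, 0, 0, 0, 0, 0, -1, 0],
  [0, 0, 0, 0, 0, 1, 1, 0, 0, 0, 0, 0, 0, 0, 0, 0, 0, -1, 0, 0, 0, 0, 0, 0],
  [0, 0, 0, 0, 0, 0, 0, 0, -1, 0, 0, 0, 0, 0, 0, 0, 0, 0, 0, 1, 1, 0, 0, -1],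
  [0, 0, 0, 0, 0, 0, 0, -1, 0, 0, 0, 0, 0, 0, 0, 0, 0, 0, 1, 0, 1, 0, 0, -1],
  [0, 0, 0, 0, 0, 0, -1, 0, 0, 0, 0, 0, 0, 0, 0, 0, 0, 0, 1, 1, 0, 0, 0, -1],
  [1, 1, 1, 0, 0, 0, 0, 0, 0, -1, -1, 0, -1, 0, 0, 0, 0, 0, 0, 0, 0, 1, 0, 0],
  [0, 0, 0, 1, 1, 1, 0, 0, 0, 0, 0, 0, 0, 0, -1, -1, -1, 0, 0, 0, 0, 0, 1, 0],
  [0, 0, 0, 0, 0, 0, 1, 1, 1, 0, 0, 0, 0, 0, 0, 0, 0, 0, -1, -1, -1, 0, 0, 1]] : List (List ℤ)).getD i []).getD j 0

def σ : Fin 24 → Fin 24 := ![3, 4, 5, 6, 7, 8, 0, 1, 2, 14, 15, 13, 16, 17, 18, 19, 20, 11, 9, 10, 12, 22, 23, 21]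

def U1 (i j : Fin 24) : ℚ := ((([[3, 0, 0, 0, 0, 0, 0, 0, -1, 0, 0, 1, -1, 0, 0, 0, 0, 0, 0, 0, 0, 1, 0, 0],
  [0, 4, 0, 0, 0, 0, 0, 0, 0, 0, -1, 0, 0, 0, 0, 0, 0, 0, 0, 0, 0, 1, 0, 0],
  [0, 0, 3, -1, 0, 0, 0, 0, 0, -1, 0, 0, 0, 1, 0, 0, 0, 0, 0, 0, 0, 1, 0, 0],
  [0, 0, 0, 8, 0, 0, 0, 0, 0, -1, 0, 0, 0, 4, 0, 0, -3, 0, 0, 0, 0, 1, 3, 0],
  [0, 0, 0, 0, 4, 0, 0, 0, 0, 0, 0, 0, 0, 0, 0, -1, 0, 0, 0, 0, 0, 0, 1, 0],
  [0, 0, 0, 0, 0, 3, -1, 0, 0, 0, 0, 0, 0, 0, -1, 0, 0, 1, 0, 0, 0, 0, 1, 0],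
  [0, 0, 0, 0, 0, 0, 8, 0, 0, 0, 0, 0, 0, 0, -1, 0, 0, 4, 0, 0, -3, 0, 1, 3],
  [0, 0, 0, 0, 0, 0, 0, 4, 0, 0, 0, 0, 0, 0, 0, 0, 0, 0, 0, -1, 0, 0, 0, 1],
  [0, 0, 0, 0, 0, 0, 0, 0, 8, 0, 0, 4, -1, 0, 0, 0, 0, 0, -3, 0, 0, 1, 0, 3],
  [0, 0, 0, 0, 0, 0, 0, 0, 0, 29, 8, 0, 8, 4, 0, 0, -1, 0, 0, 0, 0, -5, 1, 0],
  [0, 0, 0, 0, 0, 0, 0, 0, 0, 0, 403, 0, 84, -16, 0, 0, 4, 0, 0, 0, 0, -67, -4, 0],
  [0, 0, 0, 0, 0, 0, 0, 0, 0, 0, 0, 4, 1, 0, 0, 0, 0, 0, 1, 0, 0, -1, 0, -1],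
  [0, 0, 0, 0, 0, 0, 0, 0, 0, 0, 0, 0, 4954, -176, 0, 0, 44, 0, -403, 0, 0, -334, -44, 403],
  [0, 0, 0, 0, 0, 0, 0, 0, 0, 0, 0, 0, 0, 4760, 0, 0, 1287, 0, -22, 0, 0, -1100, -1287, 22],
  [0, 0, 0, 0, 0, 0, 0, 0, 0, 0, 0, 0, 0, 0, 29, 8, 8, 4, 0, 0, -1, 0, -5, 1],
  [0, 0, 0, 0, 0, 0, 0, 0, 0, 0, 0, 0, 0, 0, 0, 403, 84, -16, 0, 0, 4, 0, -67, -4],
  [0, 0, 0, 0, 0, 0, 0, 0, 0, 0, 0, 0, 0, 0, 0, 0, 532379, -19040, 806, 0, 4760, 40300, -32579, -5566],
  [0, 0, 0, 0, 0, 0, 0, 0, 0, 0, 0, 0, 0, 0, 0, 0, 0, 1023048, 88, 0, 276617, 4400, -236060, -276705],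
  [0, 0, 0, 0, 0, 0, 0, 0, 0, 0, 0, 0, 0, 0, 0, 0, 0, 0, 3559813, 1023048, 1022960, 236060, -4400, -490581],
  [0, 0, 0, 0, 0, 0, 0, 0, 0, 0, 0, 0, 0, 0, 0, 0, 0, 0, 0, 4482273, 922492, -85840, 1600, -792465],
  [0, 0, 0, 0, 0, 0, 0, 0, 0, 0, 0, 0, 0, 0, 0, 0, 0, 0, 0, 0, 47053, -880, 3580, -3333],
  [0, 0, 0, 0, 0, 0, 0, 0, 0, 0, 0, 0, 0, 0, 0, 0, 0, 0, 0, 0, 0, 165601, -9900, -9900],
  [0, 0, 0, 0, 0, 0, 0, 0, 0, 0, 0, 0, 0, 0, 0, 0, 0, 0, 0, 0, 0, 0, 155701, -9900],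
  [0, 0, 0, 0, 0, 0, 0, 0, 0, 0, 0, 0, 0, 0, 0, 0, 0, 0, 0, 0, 0, 0, 0, 1]] : List (List ℤ)).getD i []).getD j 0 : ℤ)

def D1 (i : Fin 24) : ℚ := ([1/3, 1/4, 1/3, 1/24, 1/4, 1/3, 1/24, 1/4, 1/24, 1/232, 1/46748, 1/8, 1/7985848, 1/11790520, 1/232, 1/46748, 11/1021251988120, 1/544649271192, 1/3641859570024, 11/63824214779796, 11/7996375032, 1/7792023853, 787/5440474914511, 543817/155701] : List ℚ).getD i 0

def U2 (i j : Fin 24) : ℚ := ((([[141, 0, 0, -20, 0, 0, -20, 0, 20, 0, 0, -20, 20, 0, 0, 0, 0, 0, 0, 0, 0, -20, 0, 0],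
  [0, 121, 0, 0, -20, 0, 0, -20, 0, 0, 20, 0, 0, 0, 0, 0, 0, 0, 0, 0, 0, -20, 0, 0],
  [0, 0, 141, 20, 0, -20, 0, 0, -20, 20, 0, 0, 0, -20, 0, 0, 0, 0, 0, 0, 0, -20, 0, 0],
  [0, 0, 0, 19081, 0, 400, -3220, 0, 800, -400, 0, -400, 400, -2420, 0, 0, 2820, 0, 0, 0, 0, 0, -2820, 0],
  [0, 0, 0, 0, 14241, 0, 0, -2820, 0, 0, 400, 0, 0, 0, 0, 2420, 0, 0, 0, 0, 0, -400, -2420, 0],
  [0, 0, 0, 0, 0, 371556961, 55096420, 0, -61760820, 7792400, 0, 160000, -160000, -6664400, 53808420, 0, -1128000, -53808420, 0, 0, 0, -7632400, -52680420, 0],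
  [0, 0, 0, 0, 0, 0, 48775250301, 0, 2674600800, -337456000, 0, -1235216400, 1235216400, -939680400, -1101928400, 0, 1277136400, -6329210820, 0, 0, 7431139220, -897760400, -175208000, -7431139220],
  [0, 0, 0, 0, 0, 0, 0, 11421, 0, 0, 400, 0, 0, 0, 0, 400, 0, 0, 0, 2020, 0, -400, -400, -2020],
  [0, 0, 0, 0, 0, 0, 0, 0, 250131321, 6664400, 0, -32207220, -6016400, -4568400, 6664400, 0, -2096000, -4568400, 38223620, 0, -2096000, -648000, -4568400, -36127620],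
  [0, 0, 0, 0, 0, 0, 0, 0, 0, 29501417441, -5002626420, 91368000, -4960706420, 644144400, -5135914420, 0, 120328000, 91368000, -5135914420, 0, 41920000, 5725178820, 12960000, 91368000],
  [0, 0, 0, 0, 0, 0, 0, 0, 0, 0, 38434661128360181, 20870278560000, -7871838332329620, 147135463848000, -1173145571816400, -6974725111401220, 27485321760000, 20870278560000, -1173145571816400, -6974725111401220, 9575366400000, 9238316382554020, 238971662728000, 256881618088000],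
  [0, 0, 0, 0, 0, 0, 0, 0, 0, 0, 0, 945052884453378258501, 18430548888144720400, -144272876152712831220, 2996674439357448000, 78196425667200000, 2530461896390888000, -144223846585477631220, 18370538890701520400, 78196425667200000, 2537416444934888000, -21052852247066808400, -5086064769549776000, -20466883769437848400],
  [0, 0, 0, 0, 0, 0, 0, 0, 0, 0, 0, 0, 103740530713803995213421, 1221194106766081944000, -3786405100192752960400, -4006930023430945280400, -19319118619992837338020, 797342719655017776000, -3530892380536953272400, -4006930023430945280400, -19379239384122066298020, 30631161722978573651220, 504197815540779368000, 308805860014208640000],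
  [0, 0, 0, 0, 0, 0, 0, 0, 0, 0, 0, 0, 0, 4585692253766542742790387, 32500370060765379952000, 4525574881574500320000, 98919315437443653074800, -826937698388871368798940, 44056721697528573288000, 4525574881574500320000, 22773924145723605336000, -151764356385206411002800, -105892912580732758890800, -41303872925775904488000],
  [0, 0, 0, 0, 0, 0, 0, 0, 0, 0, 0, 0, 0, 0, 523266933506193632925415227, -95325339563767609230583740, -94069604824236242302423740, 13329341123175248286586800, -111741826437058732826242540, -3611494488436754374776000, -1115080465982361955360000, 29396986359113394537802800, 105300585653925243670290540, 772213457841202341440000],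
  [0, 0, 0, 0, 0, 0, 0, 0, 0, 0, 0, 0, 0, 0, 0, 8097817128109344699904306107447, -1808708857645806688752608342940, 44170365895982113344286776000, -384894191692248953969824818800, -1827128545954988805085461782940, -61374816571077231896299736000, 597655479354050174334108826800, 2056484945887890755775244729740, 65187999723135005455030456000],
  [0, 0, 0, 0, 0, 0, 0, 0, 0, 0, 0, 0, 0, 0, 0, 0, 849531964196262626731702127893887, 14158983246240204045467367048000, -48767704675105998516430838330800, -52235060655843016597475434810800, -199182084283185070253651314127740, 73198842928673439079339205482800, 270540742825647160631208284645340, 5549899009051807233668792696000],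
  [0, 0, 0, 0, 0, 0, 0, 0, 0, 0, 0, 0, 0, 0, 0, 0, 0, 108960333442982172402918202814466867, 1564644660128688378230514027208000, 281869863491920104017571383520000, 2826740369497836440120584296146800, -2274077476922247893849015177664000, -4165032283271722333282231964794800, -3083351248626106594681942017378800],
  [0, 0, 0, 0, 0, 0, 0, 0, 0, 0, 0, 0, 0, 0, 0, 0, 0, 0, 4989193526997060609874615237642576260461, -1036934545565764882744212368654965070820, -1016979191201615239879549867716116430820, 386646434314899036825244651868316920400, 399807760955549850842284525847203328400, 1070434254683067297720279360450899215220],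
  [0, 0, 0, 0, 0, 0, 0, 0, 0, 0, 0, 0, 0, 0, 0, 0, 0, 0, 0, 2092313039009191779426483485883346171, -550837306996672290126203222531301420, 225974209781657906230571848249300400, 227181259605795155157815178071860400, 585105279542331946308699759326385820],
  [0, 0, 0, 0, 0, 0, 0, 0, 0, 0, 0, 0, 0, 0, 0, 0, 0, 0, 0, 0, 18704389571788131671, 2576541425007908400, 2535554495007980400, 6878633122170612220],
  [0, 0, 0, 0, 0, 0, 0, 0, 0, 0, 0, 0, 0, 0, 0, 0, 0, 0, 0, 0, 0, 1223151364088294296371, -590765025275313473420, -590765025275313473420],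
  [0, 0, 0, 0, 0, 0, 0, 0, 0, 0, 0, 0, 0, 0, 0, 0, 0, 0, 0, 0, 0, 0, 632386338812980822951, -590765025275313473420],
  [0, 0, 0, 0, 0, 0, 0, 0, 0, 0, 0, 0, 0, 0, 0, 0, 0, 0, 0, 0, 0, 0, 0, 1]] : List (List ℤ)).getD i []).getD j 0 : ℤ)

def D2 (i : Fin 24) : ℚ := ([1/2820, 1/2420, 1/2820, 1/53808420, 1/34463220, 1/19992893011411620, 1/362455675477077905220, 1/23070420, 1/9560924564002020, 1/147584570317795391220, 1/259000180262961065143259228252820, 1/131488490251688621163215761390824398225220, 1/1960805755716094908763193386941619056050838420, 1/3171480987306140613083489732788366712700881226180, 1/47990822472630494808907101128017711350803051980456980, 1/11949242221549577576897790624477456372793245968016836345222580, 1/137587089810897401400368084187844369319076433137268418264729529780, 1/1851305721785927363790390208631266720672952025130057570282829066840580, 1/4599060650049401290159246840310690557509833621972786021733813017648566622512020,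 245311/208779093413524159902602915574871032087904868610547584366569995856774460896620, 1908764891/138229348916515741910251542511183092949002948220, 1/457565992383430401773707046443592909318820, 549128089351/87597681827048785949814803254522140491964752019349020, 4036356411582089946851/12647726776259616459020] : List ℚ).getD i 0

def w : Fin 24 → ℤ := ![1, 1, 1, 1, 1, 1, -2, -2, -2, -2, -2, 0, -2, 0, -1, -1, -1, 0, 3, 3, 3, 3, 2, -5]

def A : Matrix (Fin 24) (Fin 24) ℝ := fun i j => g i j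

theorem core : ∃ (l : ℝ) (u v : Fin 24 → ℝ), LinearIndependent ℝ ![u, v] ∧ A *ᵥ u = l • u ∧
    A *ᵥ v = l • v ∧ ∀ (μ : ℝ) (x : Fin 24 → ℝ), x ≠ 0 → A *ᵥ x = μ • x → |μ| ≤ l := by
  have hA : A.IsHermitian := by
    ext i j
    have : ∀ i j, g j i = g i j := by decide +kernel
    simp [A, this i j]
  have q : ∀ x : Fin 24 → ℝ, x ⬝ᵥ A *ᵥ x = ∑ i, ∑ j, (g i j : ℝ) * x i * x j := fun x => by
    simp only [dotProduct, mulVec, mul_sum, A]
    exact sum_congr rfl fun i _ => sum_congr rfl fun j _ => by ring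
  have r := H54.Spec.rayleigh A hA fun i => w i
  have r1 : ∑ i, ∑ j, g i j * w i * w j = 398 := by decide +kernel
  have r2 : ∑ i, w i * w i = 98 := by decide +kernel
  rw [q, dotProduct] at r
  norm_cast at r
  rw [r1, r2] at r
  push_cast at r
  have ne : (spectrum ℝ A).Nonempty := ⟨_, hA.eigenvalues_mem_spectrum_real 0⟩
  obtain ⟨u, u0, hu⟩ := H31.Spec.eigvec (ne.csSup_mem A.finite_real_spectrum)
  have pos : ∀ x : Fin 24 → ℝ, x ≠ 0 → 0 < x ⬝ᵥ x := fun x h =>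
    (dotProduct_self_star_pos_iff.mpr h : 0 < x ⬝ᵥ star x)
  have b : σ.Bijective := by decide +kernel
  refine ⟨_, u, u ∘ σ, (LinearIndependent.pair_iff' u0).mpr fun c hc => ?_, hu, ?_, ?_⟩
  · have h3 : ∀ i, σ (σ (σ i)) = i := by decide +kernel
    have h1 : ∀ i, u (σ i) = c * u i := fun i => (congrFun hc i).symm
    obtain ⟨i, hi⟩ := Function.ne_iff.mp u0
    have : (c ^ 3 - 1) * u i = 0 := by
      have := h1 (σ (σ i)); rw [h3, h1, h1] at this; linear_combination -this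
    have c1 : c = 1 := by
      have := (mul_eq_zero.mp this).resolve_right hi
      nlinarith [sq_nonneg (c + 1), sq_nonneg (c - 1), sq_nonneg c, sq_nonneg (c ^ 2 - 1)]
    have := H31.Spec.ldl (fun i j => (if j = i then 121 / 20 else 0) - g i j -
      (if j = σ i then 1 else 0) - (if i = σ j then 1 else 0)) U2 D2 (by decide +kernel)
      (by decide +kernel) u
    simp only [Rat.cast_sub, sub_mul, sum_sub_distrib, apply_ite (Rat.cast : ℚ → ℝ), ite_mul,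
      Rat.cast_intCast, ← q] at this
    rw [sum_comm (f := fun i j => if i = σ j then _ else _)] at this
    simp [h1, c1, hu] at this
    have p := pos u u0
    simp only [dotProduct, mul_assoc, ← mul_sum] at this p
    nlinarith
  · ext i
    have h : ∀ i j, g (σ i) (σ j) = g i j := by decide +kernel
    have := congrFun hu (σ i)
    simp only [mulVec, dotProduct, A] at this ⊢
    rw [← b.sum_comp] at this
    simpa [h] using this
  · intro μ x x0 hx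
    refine abs_le.mpr ⟨?_, le_csSup A.finite_real_spectrum.bddAbove (H31.Spec.mem_spec x x0 hx)⟩
    have := H31.Spec.ldl (fun i j => (if j = i then 4 else 0) + g i j) U1 D1 (by decide +kernel)
      (by decide +kernel) x
    simp only [Rat.cast_add, add_mul, sum_add_distrib, apply_ite (Rat.cast : ℚ → ℝ), ite_mul,
      Rat.cast_intCast, ← q] at this
    simp [hx] at this
    have p := pos x x0
    simp only [dotProduct, mul_assoc, ← mul_sum] at this p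
    nlinarith

theorem result : ∃ G : Finset (Finset ℕ), IsComplex G ∧ Conn G ∧ IsUnit (L G) ∧
    ∃ (l : ℝ) (u v : G → ℝ), LinearIndependent ℝ ![u, v] ∧ (L G)⁻¹ *ᵥ u = l • u ∧
    (L G)⁻¹ *ᵥ v = l • v ∧
    ∀ (μ : ℝ) (x : G → ℝ), x ≠ 0 → (L G)⁻¹ *ᵥ x = μ • x → |μ| ≤ l := by
  have inj : S.Injective := by decide +kernel
  obtain ⟨G, hG⟩ : ∃ G, G = univ.image S := ⟨_, rfl⟩
  let e : Fin 24 ≃ G := Equiv.ofBijective (fun i => ⟨S i, by simp [hG]⟩)
    ⟨fun i j h => inj (congrArg Subtype.val h), fun ⟨x, hx⟩ => by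
      obtain ⟨i, -, rfl⟩ := mem_image.mp (hG ▸ hx); exact ⟨i, rfl⟩⟩
  have he : ∀ i, (e i).1 = S i := fun _ => rfl
  have hm : L G * A.submatrix e.symm e.symm = 1 := by
    ext i j
    obtain ⟨i, rfl⟩ := e.surjective i
    obtain ⟨j, rfl⟩ := e.surjective j
    have : ∀ i j, ∑ k, (if (S i ∩ S k).Nonempty then 1 else 0) * g k j = if i = j then 1 else 0 := by
      decide +kernel
    rw [mul_apply, ← e.sum_comp]
    simp only [L, he, submatrix_apply, e.symm_apply_apply, A, one_apply, e.apply_eq_iff_eq]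
    exact_mod_cast this i j
  obtain ⟨l, u, v, h1, h2, h3, h4⟩ := core
  refine ⟨G, ?_, ?_, (Matrix.isUnit_iff_isUnit_det _).mpr (isUnit_det_of_right_inverse hm), l,
    u ∘ e.symm, v ∘ e.symm, ?_, ?_, ?_, ?_⟩
  · intro x hx
    obtain ⟨i, -, rfl⟩ := mem_image.mp (hG ▸ hx)
    have : ∀ i, (S i).Nonempty ∧ ∀ y ∈ (S i).powerset, y.Nonempty → ∃ j, S j = y := by
      decide +kernel
    exact ⟨(this i).1, fun y hy h => by simpa [hG] using (this i).2 y (mem_powerset.mpr hy) h⟩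
  · have st : ∀ i j, (S i ∩ S j).Nonempty →
        (SimpleGraph.fromRel fun x y : G => (x.1 ∩ y.1).Nonempty).Reachable (e i) (e j) :=
      fun i j h => by
        by_cases ij : e i = e j
        · rw [ij]
        · exact SimpleGraph.Adj.reachable ⟨ij, .inl h⟩
    have : ∀ i : Fin 24, ∃ j k, (S 21 ∩ S j).Nonempty ∧ (S j ∩ S k).Nonempty ∧
        (S k ∩ S i).Nonempty := by decide +kernel
    refine (SimpleGraph.connected_iff_exists_forall_reachable _).mpr ⟨e 21, fun i => ?_⟩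
    obtain ⟨i, rfl⟩ := e.surjective i
    obtain ⟨j, k, a, b, c⟩ := this i
    exact ((st _ _ a).trans (st _ _ b)).trans (st _ _ c)
  · rw [LinearIndependent.pair_iff] at h1 ⊢
    exact fun s t h => h1 s t (by ext i; simpa using congrFun h (e i))
  · rw [inv_eq_right_inv hm, submatrix_mulVec_equiv]
    ext i; simp [Function.comp_assoc, h2]
  · rw [inv_eq_right_inv hm, submatrix_mulVec_equiv]
    ext i; simp [Function.comp_assoc, h3]
  · intro μ x x0 hx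
    rw [inv_eq_right_inv hm, submatrix_mulVec_equiv] at hx
    refine h4 μ (x ∘ e) (fun h => x0 ?_) ?_
    · ext i; simpa using congrFun h (e.symm i)
    · ext i; simpa using congrFun hx (e i)

end Pool.Agent.Results.MP_5fc97f_co.Double
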